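import Mathlib.Data.Finset.Powerset
import Mathlib.Data.Nat.Choose.Basic
import Mathlib.Data.Nat.Choose.Sum
import Mathlib.Algebra.BigOperators.Fin
import Mathlib.Data.Fintype.Powerset
import Mathlib.Data.Fintype.Prod
import Mathlib.Tactic

set_option autoImplicit false

/-!
# MP_01f920_co : the EKR property can fail with one tight class

Partition classes of sizes `5, 3, N` with `N ≥ 4`, lower bounds `2, 1, 1` and `k = 6`.
-/

namespace Pool.Agent.Results.MP_01f920_co.OneTightClass

open Finset

/-- The class `X_i` of the partition of `[n]` given by the colouring `c`. -/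
def cls {n d : ℕ} (c : Fin n → Fin d) (i : Fin d) : Finset (Fin n) :=
  univ.filter (fun x => c x = i)

/-- The family `H` of all `k`-subsets of `[n]` having at least `κ i` elements in `X_i` for all `i`. -/
def fam {n d : ℕ} (c : Fin n → Fin d) (κ : Fin d → ℕ) (k : ℕ) : Finset (Finset (Fin n)) :=
  (powersetCard k univ).filter (fun F => ∀ i, κ i ≤ (F ∩ cls c i).card)

/-- The conditions on the parameters: `n_i > k_i`, `k ≥ ∑ k_i`, `n_i ≥ 2 k_i` for all `i`, and
`n_i > s + k_i`, where `s = k - ∑ k_j`, for every `i` with `k_i > 0` except possibly one. -/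
def Hyp {n d : ℕ} (c : Fin n → Fin d) (κ : Fin d → ℕ) (k : ℕ) : Prop :=
  (∀ i, κ i < (cls c i).card) ∧ ∑ i, κ i ≤ k ∧ (∀ i, 2 * κ i ≤ (cls c i).card) ∧
    ∃ i₀, ∀ i, i ≠ i₀ → 0 < κ i → (k - ∑ j, κ j) + κ i < (cls c i).card

/-- The EKR property: every intersecting subfamily is at most as large as some star of `H`. -/
def EKR {n : ℕ} (H : Finset (Finset (Fin n))) : Prop :=
  ∀ G ⊆ H, (∀ A ∈ G, ∀ B ∈ G, (A ∩ B).Nonempty) →
    ∃ x, G.card ≤ (H.filter (fun F => x ∈ F)).card

lemma count {V : Type} [Fintype V] [DecidableEq V] (W X Y Z : Finset V)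
    (h1 : Disjoint W X) (h2 : Disjoint W Y) (h3 : Disjoint W Z) (h4 : Disjoint X Y)
    (h5 : Disjoint X Z) (h6 : Disjoint Y Z) (hc : ∀ v, v ∈ W ∨ v ∈ X ∨ v ∈ Y ∨ v ∈ Z)
    (a b c : ℕ) :
    (univ.filter (fun F : Finset V => W ⊆ F ∧ (F ∩ X).card = a ∧ (F ∩ Y).card = b ∧
      (F ∩ Z).card = c)).card = X.card.choose a * (Y.card.choose b * Z.card.choose c) := by
  rw [← card_powersetCard a X, ← card_powersetCard b Y, ← card_powersetCard c Z,
    ← card_product, ← card_product]
  refine card_nbij' (fun F => (F ∩ X, F ∩ Y, F ∩ Z)) (fun p => W ∪ (p.1 ∪ (p.2.1 ∪ p.2.2)))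
    ?_ ?_ ?_ ?_
  · intro F hF
    simp only [coe_filter, mem_univ, true_and, Set.mem_ofPred_eq] at hF
    simp only [mem_coe, mem_product, mem_powersetCard]
    exact ⟨⟨inter_subset_right, hF.2.1⟩, ⟨inter_subset_right, hF.2.2.1⟩,
      inter_subset_right, hF.2.2.2⟩
  · rintro ⟨P, Q, R⟩ hp
    simp only [mem_coe, mem_product, mem_powersetCard] at hp
    obtain ⟨⟨hP, hPa⟩, ⟨hQ, hQb⟩, hR, hRc⟩ := hp
    have e1 : (W ∪ (P ∪ (Q ∪ R))) ∩ X = P := by
      rw [union_inter_distrib_right, union_inter_distrib_right, union_inter_distrib_right,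
        disjoint_iff_inter_eq_empty.1 h1, inter_eq_left.2 hP,
        disjoint_iff_inter_eq_empty.1 (disjoint_of_subset_left hQ h4.symm),
        disjoint_iff_inter_eq_empty.1 (disjoint_of_subset_left hR h5.symm)]
      simp
    have e2 : (W ∪ (P ∪ (Q ∪ R))) ∩ Y = Q := by
      rw [union_inter_distrib_right, union_inter_distrib_right, union_inter_distrib_right,
        disjoint_iff_inter_eq_empty.1 h2, inter_eq_left.2 hQ,
        disjoint_iff_inter_eq_empty.1 (disjoint_of_subset_left hP h4),
        disjoint_iff_inter_eq_empty.1 (disjoint_of_subset_left hR h6.symm)]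
      simp
    have e3 : (W ∪ (P ∪ (Q ∪ R))) ∩ Z = R := by
      rw [union_inter_distrib_right, union_inter_distrib_right, union_inter_distrib_right,
        disjoint_iff_inter_eq_empty.1 h3, inter_eq_left.2 hR,
        disjoint_iff_inter_eq_empty.1 (disjoint_of_subset_left hP h5),
        disjoint_iff_inter_eq_empty.1 (disjoint_of_subset_left hQ h6)]
      simp
    simp only [coe_filter, mem_univ, true_and, Set.mem_ofPred_eq]
    rw [e1, e2, e3]
    exact ⟨subset_union_left, hPa, hQb, hRc⟩
  · intro F hF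
    simp only [coe_filter, mem_univ, true_and, Set.mem_ofPred_eq] at hF
    obtain ⟨hW, -⟩ := hF
    ext v
    have h7 := @hW v
    have h8 := hc v
    simp only [mem_inter, mem_union]
    tauto
  · rintro ⟨P, Q, R⟩ hp
    simp only [mem_coe, mem_product, mem_powersetCard] at hp
    obtain ⟨⟨hP, hPa⟩, ⟨hQ, hQb⟩, hR, hRc⟩ := hp
    refine Prod.ext ?_ (Prod.ext ?_ ?_)
    · show (W ∪ (P ∪ (Q ∪ R))) ∩ X = P
      rw [union_inter_distrib_right, union_inter_distrib_right, union_inter_distrib_right,
        disjoint_iff_inter_eq_empty.1 h1, inter_eq_left.2 hP,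
        disjoint_iff_inter_eq_empty.1 (disjoint_of_subset_left hQ h4.symm),
        disjoint_iff_inter_eq_empty.1 (disjoint_of_subset_left hR h5.symm)]
      simp
    · show (W ∪ (P ∪ (Q ∪ R))) ∩ Y = Q
      rw [union_inter_distrib_right, union_inter_distrib_right, union_inter_distrib_right,
        disjoint_iff_inter_eq_empty.1 h2, inter_eq_left.2 hQ,
        disjoint_iff_inter_eq_empty.1 (disjoint_of_subset_left hP h4),
        disjoint_iff_inter_eq_empty.1 (disjoint_of_subset_left hR h6.symm)]
      simp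
    · show (W ∪ (P ∪ (Q ∪ R))) ∩ Z = R
      rw [union_inter_distrib_right, union_inter_distrib_right, union_inter_distrib_right,
        disjoint_iff_inter_eq_empty.1 h3, inter_eq_left.2 hR,
        disjoint_iff_inter_eq_empty.1 (disjoint_of_subset_left hP h5),
        disjoint_iff_inter_eq_empty.1 (disjoint_of_subset_left hQ h6)]
      simp

/-- the possible intersection sizes -/
def types : Finset (ℕ × ℕ × ℕ) := {(2, 1, 3), (2, 2, 2), (2, 3, 1), (3, 1, 2), (3, 2, 1), (4, 1, 1)}

/-- the family in terms of three classes -/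
def fam3 {V : Type} [Fintype V] [DecidableEq V] (X Y Z : Finset V) : Finset (Finset V) :=
  univ.filter (fun F => F.card = 6 ∧ 2 ≤ (F ∩ X).card ∧ 1 ≤ (F ∩ Y).card ∧ 1 ≤ (F ∩ Z).card)

lemma star_count {V : Type} [Fintype V] [DecidableEq V] (X Y Z : Finset V)
    (h4 : Disjoint X Y) (h5 : Disjoint X Z) (h6 : Disjoint Y Z)
    (hc : ∀ v, v ∈ X ∨ v ∈ Y ∨ v ∈ Z) (hX : X.card = 5) (hY : Y.card = 3) (x : V) :
    ((fam3 X Y Z).filter (fun F => x ∈ F)).card =
      ∑ t ∈ types, (univ.filter (fun F : Finset V => x ∈ F ∧ (F ∩ X).card = t.1 ∧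
        (F ∩ Y).card = t.2.1 ∧ (F ∩ Z).card = t.2.2)).card := by
  have hsum : ∀ F : Finset V, (F ∩ X).card + (F ∩ Y).card + (F ∩ Z).card = F.card := by
    intro F
    have e : F = (F ∩ X) ∪ (F ∩ Y) ∪ (F ∩ Z) := by
      ext v
      have := hc v
      simp only [mem_inter, mem_union]
      tauto
    conv_rhs => rw [e]
    rw [card_union_of_disjoint, card_union_of_disjoint]
    · exact disjoint_of_subset_left inter_subset_right
        (disjoint_of_subset_right inter_subset_right h4)
    · rw [disjoint_union_left]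
      exact ⟨disjoint_of_subset_left inter_subset_right
        (disjoint_of_subset_right inter_subset_right h5), disjoint_of_subset_left
        inter_subset_right (disjoint_of_subset_right inter_subset_right h6)⟩
  have hmaps : ∀ F ∈ (fam3 X Y Z).filter (fun F => x ∈ F),
      ((F ∩ X).card, (F ∩ Y).card, (F ∩ Z).card) ∈ types := by
    intro F hF
    simp only [fam3, mem_filter, mem_univ, true_and] at hF
    obtain ⟨⟨h7, h8, h9, h10⟩, -⟩ := hF
    have h11 := hsum F
    have h12 : (F ∩ Y).card ≤ 3 := hY ▸ card_le_card inter_subset_right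
    simp only [types, mem_insert, mem_singleton, Prod.mk.injEq]
    omega
  rw [card_eq_sum_card_fiberwise hmaps]
  refine sum_congr rfl ?_
  rintro ⟨a, b, c⟩ ht
  congr 1
  ext F
  simp only [fam3, mem_filter, mem_univ, true_and, Prod.mk.injEq]
  constructor
  · tauto
  · rintro ⟨hx, ha, hb, hcc⟩
    have h11 := hsum F
    simp only [types, mem_insert, mem_singleton, Prod.mk.injEq] at ht
    refine ⟨⟨⟨?_, ?_, ?_, ?_⟩, hx⟩, ha, hb, hcc⟩ <;> omega

/-- shifting the count to the class without `x` -/
lemma shift {V : Type} [DecidableEq V] (F X : Finset V) (x : V) (hx : x ∈ F) (hX : x ∈ X) (a : ℕ) :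
    (F ∩ X).card = a + 1 ↔ (F ∩ X.erase x).card = a := by
  have e : F ∩ X = insert x (F ∩ X.erase x) := by
    ext v
    by_cases h : v = x
    · subst h; simp [hx, hX]
    · simp [h]
  rw [e, card_insert_of_notMem (by simp)]
  omega

lemma keep {V : Type} [DecidableEq V] (F X : Finset V) (x : V) (hX : x ∉ X) :
    F ∩ X = F ∩ X.erase x := by
  rw [erase_eq_of_notMem hX]

lemma star_X {V : Type} [Fintype V] [DecidableEq V] (X Y Z : Finset V)
    (h4 : Disjoint X Y) (h5 : Disjoint X Z) (h6 : Disjoint Y Z)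
    (hc : ∀ v, v ∈ X ∨ v ∈ Y ∨ v ∈ Z) (hX : X.card = 5) (hY : Y.card = 3) (x : V)
    (hx : x ∈ X) :
    ((fam3 X Y Z).filter (fun F => x ∈ F)).card =
      12 * Z.card.choose 3 + 30 * Z.card.choose 2 + 34 * Z.card := by
  rw [star_count X Y Z h4 h5 h6 hc hX hY x]
  have key : ∀ a b c : ℕ, (univ.filter (fun F : Finset V => x ∈ F ∧ (F ∩ X).card = a + 1 ∧
      (F ∩ Y).card = b ∧ (F ∩ Z).card = c)).card =
      Nat.choose 4 a * (Nat.choose 3 b * Z.card.choose c) := by
    intro a b c
    have hcard : (X.erase x).card = 4 := by rw [card_erase_of_mem hx, hX]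
    have := count {x} (X.erase x) Y Z (by simp) (by
      rw [disjoint_singleton_left]; exact disjoint_left.1 h4 hx) (by
      rw [disjoint_singleton_left]; exact disjoint_left.1 h5 hx)
      (disjoint_of_subset_left (erase_subset _ _) h4)
      (disjoint_of_subset_left (erase_subset _ _) h5) h6 (by
        intro v
        have := hc v
        simp only [mem_singleton, mem_erase]
        tauto) a b c
    rw [hcard, hY] at this
    rw [← this]
    congr 1
    ext F
    simp only [mem_filter, mem_univ, true_and, singleton_subset_iff]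
    constructor
    · rintro ⟨h7, h8, h9⟩
      exact ⟨h7, (shift F X x h7 hx a).1 h8, h9⟩
    · rintro ⟨h7, h8, h9⟩
      exact ⟨h7, (shift F X x h7 hx a).2 h8, h9⟩
  simp only [types]
  rw [sum_insert (by decide), sum_insert (by decide), sum_insert (by decide),
    sum_insert (by decide), sum_insert (by decide), sum_singleton]
  rw [key 1 1 3, key 1 2 2, key 1 3 1, key 2 1 2, key 2 2 1, key 3 1 1]
  have c1 : Nat.choose 4 1 = 4 := rfl
  have c2 : Nat.choose 4 2 = 6 := rfl
  have c3 : Nat.choose 4 3 = 4 := rfl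
  have d1 : Nat.choose 3 1 = 3 := rfl
  have d2 : Nat.choose 3 2 = 3 := rfl
  have d3 : Nat.choose 3 3 = 1 := rfl
  rw [c1, c2, c3, d1, d2, d3, Nat.choose_one_right]
  ring

lemma star_Y {V : Type} [Fintype V] [DecidableEq V] (X Y Z : Finset V)
    (h4 : Disjoint X Y) (h5 : Disjoint X Z) (h6 : Disjoint Y Z)
    (hc : ∀ v, v ∈ X ∨ v ∈ Y ∨ v ∈ Z) (hX : X.card = 5) (hY : Y.card = 3) (x : V)
    (hx : x ∈ Y) :
    ((fam3 X Y Z).filter (fun F => x ∈ F)).card =
      10 * Z.card.choose 3 + 30 * Z.card.choose 2 + 35 * Z.card := by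
  rw [star_count X Y Z h4 h5 h6 hc hX hY x]
  have key : ∀ a b c : ℕ, (univ.filter (fun F : Finset V => x ∈ F ∧ (F ∩ X).card = a ∧
      (F ∩ Y).card = b + 1 ∧ (F ∩ Z).card = c)).card =
      Nat.choose 5 a * (Nat.choose 2 b * Z.card.choose c) := by
    intro a b c
    have hcard : (Y.erase x).card = 2 := by rw [card_erase_of_mem hx, hY]
    have := count {x} X (Y.erase x) Z (by
      rw [disjoint_singleton_left]; exact disjoint_right.1 h4 hx) (by simp) (by
      rw [disjoint_singleton_left]; exact disjoint_left.1 h6 hx)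
      (disjoint_of_subset_right (erase_subset _ _) h4) h5
      (disjoint_of_subset_left (erase_subset _ _) h6) (by
        intro v
        have := hc v
        simp only [mem_singleton, mem_erase]
        tauto) a b c
    rw [hcard, hX] at this
    rw [← this]
    congr 1
    ext F
    simp only [mem_filter, mem_univ, true_and, singleton_subset_iff]
    constructor
    · rintro ⟨h7, h8, h9, h10⟩
      exact ⟨h7, h8, (shift F Y x h7 hx b).1 h9, h10⟩
    · rintro ⟨h7, h8, h9, h10⟩
      exact ⟨h7, h8, (shift F Y x h7 hx b).2 h9, h10⟩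
  simp only [types]
  rw [sum_insert (by decide), sum_insert (by decide), sum_insert (by decide),
    sum_insert (by decide), sum_insert (by decide), sum_singleton]
  rw [key 2 0 3, key 2 1 2, key 2 2 1, key 3 0 2, key 3 1 1, key 4 0 1]
  have c1 : Nat.choose 5 2 = 10 := rfl
  have c2 : Nat.choose 5 3 = 10 := rfl
  have c3 : Nat.choose 5 4 = 5 := rfl
  have d1 : Nat.choose 2 0 = 1 := rfl
  have d2 : Nat.choose 2 1 = 2 := rfl
  have d3 : Nat.choose 2 2 = 1 := rfl
  rw [c1, c2, c3, d1, d2, d3, Nat.choose_one_right]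
  ring

lemma star_Z {V : Type} [Fintype V] [DecidableEq V] (X Y Z : Finset V)
    (h4 : Disjoint X Y) (h5 : Disjoint X Z) (h6 : Disjoint Y Z)
    (hc : ∀ v, v ∈ X ∨ v ∈ Y ∨ v ∈ Z) (hX : X.card = 5) (hY : Y.card = 3) (x : V)
    (hx : x ∈ Z) :
    ((fam3 X Y Z).filter (fun F => x ∈ F)).card =
      30 * (Z.card - 1).choose 2 + 60 * (Z.card - 1) + 55 := by
  rw [star_count X Y Z h4 h5 h6 hc hX hY x]
  have key : ∀ a b c : ℕ, (univ.filter (fun F : Finset V => x ∈ F ∧ (F ∩ X).card = a ∧
      (F ∩ Y).card = b ∧ (F ∩ Z).card = c + 1)).card =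
      Nat.choose 5 a * (Nat.choose 3 b * (Z.card - 1).choose c) := by
    intro a b c
    have hcard : (Z.erase x).card = Z.card - 1 := by rw [card_erase_of_mem hx]
    have := count {x} X Y (Z.erase x) (by
      rw [disjoint_singleton_left]; exact disjoint_right.1 h5 hx) (by
      rw [disjoint_singleton_left]; exact disjoint_right.1 h6 hx) (by simp)
      h4 (disjoint_of_subset_right (erase_subset _ _) h5)
      (disjoint_of_subset_right (erase_subset _ _) h6) (by
        intro v
        have := hc v
        simp only [mem_singleton, mem_erase]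
        tauto) a b c
    rw [hcard, hX, hY] at this
    rw [← this]
    congr 1
    ext F
    simp only [mem_filter, mem_univ, true_and, singleton_subset_iff]
    constructor
    · rintro ⟨h7, h8, h9, h10⟩
      exact ⟨h7, h8, h9, (shift F Z x h7 hx c).1 h10⟩
    · rintro ⟨h7, h8, h9, h10⟩
      exact ⟨h7, h8, h9, (shift F Z x h7 hx c).2 h10⟩
  simp only [types]
  rw [sum_insert (by decide), sum_insert (by decide), sum_insert (by decide),
    sum_insert (by decide), sum_insert (by decide), sum_singleton]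
  rw [key 2 1 2, key 2 2 1, key 2 3 0, key 3 1 1, key 3 2 0, key 4 1 0]
  have c1 : Nat.choose 5 2 = 10 := rfl
  have c2 : Nat.choose 5 3 = 10 := rfl
  have c3 : Nat.choose 5 4 = 5 := rfl
  have d1 : Nat.choose 3 1 = 3 := rfl
  have d2 : Nat.choose 3 2 = 3 := rfl
  have d3 : Nat.choose 3 3 = 1 := rfl
  rw [c1, c2, c3, d1, d2, d3, Nat.choose_one_right, Nat.choose_zero_right]
  ring

lemma card_filter_val {m : ℕ} (p : ℕ → Prop) [DecidablePred p] :
    (univ.filter (fun x : Fin m => p x)).card = ((range m).filter p).card := by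
  rw [← card_image_of_injective _ Fin.val_injective]
  congr 1
  ext y
  simp only [mem_image, mem_filter, mem_univ, true_and, mem_range]
  constructor
  · rintro ⟨x, hx, rfl⟩
    exact ⟨x.isLt, hx⟩
  · rintro ⟨h1, h2⟩
    exact ⟨⟨y, h1⟩, h2, rfl⟩

/-- the colouring with classes of sizes `5, 3, N` -/
def col (N : ℕ) : Fin (N + 8) → Fin 3 :=
  fun x => if (x : ℕ) < 5 then 0 else if (x : ℕ) < 8 then 1 else 2

/-- the lower bounds `2, 1, 1` -/
def low : Fin 3 → ℕ := ![2, 1, 1]

lemma mem_cls {n d : ℕ} (c : Fin n → Fin d) (i : Fin d) (x : Fin n) : x ∈ cls c i ↔ c x = i := by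
  simp [cls]

lemma cls0 (N : ℕ) : (cls (col N) 0).card = 5 := by
  have : cls (col N) 0 = univ.filter (fun x : Fin (N + 8) => (x : ℕ) < 5) := by
    ext x
    rw [mem_cls, mem_filter]
    simp only [col, mem_univ, true_and]
    split_ifs <;> simp_all
  rw [this, card_filter_val (fun y => y < 5)]
  have : (range (N + 8)).filter (fun y => y < 5) = range 5 := by
    ext y; simp only [mem_filter, mem_range]; omega
  rw [this, card_range]

lemma cls1 (N : ℕ) : (cls (col N) 1).card = 3 := by
  have : cls (col N) 1 = univ.filter (fun x : Fin (N + 8) => 5 ≤ (x : ℕ) ∧ (x : ℕ) < 8) := by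
    ext x
    rw [mem_cls, mem_filter]
    simp only [col, mem_univ, true_and]
    split_ifs with h1 h2
    · simp; omega
    · simp; omega
    · simp; omega
  rw [this, card_filter_val (fun y => 5 ≤ y ∧ y < 8)]
  have : (range (N + 8)).filter (fun y => 5 ≤ y ∧ y < 8) = Ico 5 8 := by
    ext y; simp only [mem_filter, mem_range, mem_Ico]; omega
  rw [this]
  simp

lemma cls2 (N : ℕ) : (cls (col N) 2).card = N := by
  have : cls (col N) 2 = univ.filter (fun x : Fin (N + 8) => 8 ≤ (x : ℕ)) := by
    ext x
    rw [mem_cls, mem_filter]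
    simp only [col, mem_univ, true_and]
    split_ifs with h1 h2
    · simp; omega
    · simp; omega
    · simp; omega
  rw [this, card_filter_val (fun y => 8 ≤ y)]
  have : (range (N + 8)).filter (fun y => 8 ≤ y) = Ico 8 (N + 8) := by
    ext y; simp only [mem_filter, mem_range, mem_Ico]; omega
  rw [this]
  simp

lemma fam_eq (N : ℕ) : fam (col N) low 6 = fam3 (cls (col N) 0) (cls (col N) 1)
    (cls (col N) 2) := by
  ext F
  unfold fam fam3
  rw [mem_filter, mem_filter, mem_powersetCard]
  simp only [subset_univ, true_and, mem_univ]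
  constructor
  · rintro ⟨h1, h2⟩
    exact ⟨h1, h2 0, h2 1, h2 2⟩
  · rintro ⟨h1, h2, h3, h4⟩
    refine ⟨h1, ?_⟩
    intro i
    fin_cases i
    · exact h2
    · exact h3
    · exact h4

lemma disj (N : ℕ) (i j : Fin 3) (h : i ≠ j) : Disjoint (cls (col N) i) (cls (col N) j) := by
  rw [disjoint_left]
  intro x hx hy
  rw [mem_cls] at hx hy
  exact h (hx ▸ hy)

lemma cover (N : ℕ) (v : Fin (N + 8)) :
    v ∈ cls (col N) 0 ∨ v ∈ cls (col N) 1 ∨ v ∈ cls (col N) 2 := by
  rw [mem_cls, mem_cls, mem_cls]
  generalize col N v = y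
  fin_cases y <;> simp

lemma num (N : ℕ) (hN : 4 ≤ N) : 10 * N.choose 3 + 30 * N.choose 2 + 35 * N ≤
    12 * N.choose 3 + 30 * N.choose 2 + 34 * N ∧ 30 * (N - 1).choose 2 + 60 * (N - 1) + 55 ≤
    12 * N.choose 3 + 30 * N.choose 2 + 34 * N := by
  induction N, hN using Nat.le_induction with
  | base => decide
  | succ N hN ih =>
    have e3 : (N + 1).choose 3 = N.choose 2 + N.choose 3 := rfl
    have e2 : (N + 1).choose 2 = N.choose 1 + N.choose 2 := rfl
    obtain ⟨M, rfl⟩ : ∃ M, N = M + 1 := ⟨N - 1, by omega⟩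
    have e4 : (M + 1).choose 2 = M.choose 1 + M.choose 2 := rfl
    have h1 : M + 1 + 1 - 1 = M + 1 := by omega
    have h2 : M + 1 - 1 = M := by omega
    rw [h1]
    rw [h2] at ih
    rw [e3, e2]
    rw [Nat.choose_one_right] at *
    have h3 : 0 < (M + 1).choose 2 := Nat.choose_pos (by omega)
    have h5 : M ≤ (M + 1).choose 2 := by
      rw [e4]; omega
    omega

theorem result : ∀ N : ℕ, 4 ≤ N → ∃ (c : Fin (N + 8) → Fin 3) (κ : Fin 3 → ℕ),
    (cls c 0).card = 5 ∧ (cls c 1).card = 3 ∧ (cls c 2).card = N ∧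
      κ 0 = 2 ∧ κ 1 = 1 ∧ κ 2 = 1 ∧ Hyp c κ 6 ∧ 2 * 6 ≤ N + 8 ∧ ¬ EKR (fam c κ 6) := by
  intro N hN
  have k0 : low 0 = 2 := rfl
  have k1 : low 1 = 1 := rfl
  have k2 : low 2 = 1 := rfl
  have hs : ∑ j, low j = 4 := by decide
  refine ⟨col N, low, cls0 N, cls1 N, cls2 N, k0, k1, k2, ?_, by omega, ?_⟩
  · refine ⟨?_, by omega, ?_, 1, ?_⟩
    · intro i
      fin_cases i
      · show low 0 < (cls (col N) 0).card
        rw [cls0, k0]; omega
      · show low 1 < (cls (col N) 1).card
        rw [cls1, k1]; omega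
      · show low 2 < (cls (col N) 2).card
        rw [cls2, k2]; omega
    · intro i
      fin_cases i
      · show 2 * low 0 ≤ (cls (col N) 0).card
        rw [cls0, k0]; omega
      · show 2 * low 1 ≤ (cls (col N) 1).card
        rw [cls1, k1]; omega
      · show 2 * low 2 ≤ (cls (col N) 2).card
        rw [cls2, k2]; omega
    · intro i hi _
      rw [hs]
      fin_cases i
      · show 6 - 4 + low 0 < (cls (col N) 0).card
        rw [cls0, k0]; omega
      · exact absurd rfl hi
      · show 6 - 4 + low 2 < (cls (col N) 2).card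
        rw [cls2, k2]; omega
  · intro hE
    rw [fam_eq] at hE
    have d01 := disj N 0 1 (by decide)
    have d02 := disj N 0 2 (by decide)
    have d12 := disj N 1 2 (by decide)
    have hcov := cover N
    have hX := cls0 N
    have hY := cls1 N
    have hZ := cls2 N
    generalize cls (col N) 0 = X at *
    generalize cls (col N) 1 = Y at *
    generalize cls (col N) 2 = Z at *
    obtain ⟨x, hx⟩ : X.Nonempty := card_pos.1 (by omega)
    let P := (fam3 X Y Z).filter (fun F => x ∈ F)
    let Q := univ.filter (fun F : Finset (Fin (N + 8)) => Y ⊆ F ∧ (F ∩ {x}).card = 0 ∧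
      (F ∩ X.erase x).card = 2 ∧ (F ∩ Z).card = 1)
    have hYx : x ∉ Y := disjoint_left.1 d01 hx
    have hZx : x ∉ Z := disjoint_left.1 d02 hx
    have hQ : Q.card = 6 * N := by
      have := count Y {x} (X.erase x) Z (by simpa using hYx)
        (disjoint_of_subset_right (erase_subset _ _) d01.symm) d12 (by simp)
        (by simpa using hZx) (disjoint_of_subset_left (erase_subset _ _) d02) (by
          intro v
          have := hcov v
          simp only [mem_singleton, mem_erase]
          tauto) 0 2 1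
      rw [card_erase_of_mem hx, hX, hZ] at this
      simp only [Q]
      rw [this]
      have c1 : Nat.choose (5 - 1) 2 = 6 := rfl
      rw [c1]
      simp
    have hxQ : ∀ F ∈ Q, x ∉ F := by
      intro F hF
      simp only [Q, mem_filter, mem_univ, true_and] at hF
      intro hxF
      have : F ∩ {x} = {x} := by
        rw [inter_eq_right, singleton_subset_iff]
        exact hxF
      rw [this] at hF
      simp at hF
    have hPQ : Disjoint P Q := by
      rw [disjoint_left]
      intro F hF hF'
      exact hxQ F hF' (mem_filter.1 hF).2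
    have hQsub : Q ⊆ fam3 X Y Z := by
      intro F hF
      have hxF := hxQ F hF
      simp only [Q, mem_filter, mem_univ, true_and] at hF
      obtain ⟨q1, q2, q3, q4⟩ := hF
      have e1 : F ∩ X = F ∩ X.erase x := by
        ext v
        simp only [mem_inter, mem_erase]
        constructor
        · rintro ⟨a, b⟩
          exact ⟨a, fun h => hxF (h ▸ a), b⟩
        · tauto
      have e2 : F ∩ Y = Y := inter_eq_right.2 q1
      have e : F = (F ∩ X) ∪ (F ∩ Y) ∪ (F ∩ Z) := by
        ext v
        have := hcov v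
        simp only [mem_inter, mem_union]
        tauto
      have hFc : F.card = 6 := by
        rw [e, card_union_of_disjoint, card_union_of_disjoint, e1, e2, q3, q4, hY]
        · exact disjoint_of_subset_left inter_subset_right
            (disjoint_of_subset_right inter_subset_right d01)
        · rw [disjoint_union_left]
          exact ⟨disjoint_of_subset_left inter_subset_right
            (disjoint_of_subset_right inter_subset_right d02), disjoint_of_subset_left
            inter_subset_right (disjoint_of_subset_right inter_subset_right d12)⟩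
      simp only [fam3, mem_filter, mem_univ, true_and]
      rw [e1, e2, q3, q4, hY, hFc]
      omega
    obtain ⟨z, hz⟩ := hE (P ∪ Q) (union_subset (filter_subset _ _) hQsub) (by
      have hYne : Y.Nonempty := card_pos.1 (by omega)
      have aux : ∀ A ∈ P, ∀ B ∈ Q, (A ∩ B).Nonempty := by
        intro A hA B hB
        simp only [P, fam3, mem_filter, mem_univ, true_and] at hA
        simp only [Q, mem_filter, mem_univ, true_and] at hB
        obtain ⟨y, hy⟩ : (A ∩ Y).Nonempty := card_pos.1 (by omega)
        rw [mem_inter] at hy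
        exact ⟨y, mem_inter.2 ⟨hy.1, hB.1 hy.2⟩⟩
      intro A hA B hB
      rw [mem_union] at hA hB
      rcases hA with hA | hA <;> rcases hB with hB | hB
      · exact ⟨x, mem_inter.2 ⟨(mem_filter.1 hA).2, (mem_filter.1 hB).2⟩⟩
      · exact aux A hA B hB
      · rw [inter_comm]; exact aux B hB A hA
      · obtain ⟨y, hy⟩ := hYne
        simp only [Q, mem_filter, mem_univ, true_and] at hA hB
        exact ⟨y, mem_inter.2 ⟨hA.1 hy, hB.1 hy⟩⟩)
    rw [card_union_of_disjoint hPQ, hQ] at hz
    have hP : P.card = 12 * Z.card.choose 3 + 30 * Z.card.choose 2 + 34 * Z.card :=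
      star_X X Y Z d01 d02 d12 hcov hX hY x hx
    rw [hP, hZ] at hz
    obtain ⟨n1, n2⟩ := num N hN
    rcases hcov z with h | h | h
    · rw [star_X X Y Z d01 d02 d12 hcov hX hY z h, hZ] at hz
      omega
    · rw [star_Y X Y Z d01 d02 d12 hcov hX hY z h, hZ] at hz
      omega
    · rw [star_Z X Y Z d01 d02 d12 hcov hX hY z h, hZ] at hz
      omega

end Pool.Agent.Results.MP_01f920_co.OneTightClass
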